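import Mathlib
import Pool.Agent.H17.IdlDef
import Pool.Agent.H17.Idl

set_option autoImplicit false
universe u
open Cardinal

namespace Pool.Agent.Results.MP_88803c_co.IdealAntichains

/-- For every cardinal `μ` and every partial order `P` (of any size) without an antichain of
cardinality `μ`, the poset of ideals of `P` has no antichain of cardinality
`i(μ) = (2 ^ 2 ^ max μ ℵ₀)⁺`. -/
theorem result : ∀ (μ : Cardinal.{u}) (P : Type u) [PartialOrder P],
    (¬ ∃ A : Set P, IsAntichain (· ≤ ·) A ∧ #A = μ) →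
    ¬ ∃ B : Set (Set P), (∀ J ∈ B, Pool.Agent.H17.Idl.IsIdl J) ∧ IsAntichain (· ⊆ ·) B ∧
      #B = Order.succ (2 ^ (2 ^ (max μ ℵ₀) : Cardinal.{u})) :=
  fun μ P _ hP => Pool.Agent.H17.Idl.main μ P hP

end Pool.Agent.Results.MP_88803c_co.IdealAntichains
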